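import Mathlib

/-!
Realisation of inverse limits of towers of finite groups by closed quotients of a Galois group.
-/

set_option autoImplicit false

namespace Pool.Agent.TH15.IGP

open IntermediateField AlgEquiv

/-- The inverse limit of a sequence of groups. -/
def Lim {W : ℕ → Type} [∀ k, Group (W k)] (p : ∀ k, W (k + 1) →* W k) : Subgroup (∀ k, W k) where
  carrier := {x | ∀ k, p k (x (k + 1)) = x k}
  one_mem' := fun k => map_one (p k)
  mul_mem' := by
    intro a b ha hb k
    rw [Pi.mul_apply, map_mul, ha, hb]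
    rfl
  inv_mem' := by
    intro a ha k
    rw [Pi.inv_apply, map_inv, ha]
    rfl

section

variable {k Ω : Type} [Field k] [Field Ω] [Algebra k Ω] [IsGalois k Ω]

omit [IsGalois k Ω] in
/-- The sequence of compatible epimorphisms. -/
theorem exists_hom_seq {W : ℕ → Type} [∀ k, Group (W k)] (p : ∀ k, W (k + 1) →* W k)
    (C : ∀ (i : ℕ) (f : Gal(Ω/k) →* W i), Function.Surjective f →
      IsOpen (f.ker : Set Gal(Ω/k)) → ∃ f' : Gal(Ω/k) →* W (i + 1), Function.Surjective f' ∧
        IsOpen (f'.ker : Set Gal(Ω/k)) ∧ ∀ σ, p i (f' σ) = f σ)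
    (f₀ : Gal(Ω/k) →* W 0) (h₀ : Function.Surjective f₀) (h₀' : IsOpen (f₀.ker : Set Gal(Ω/k))) :
    ∃ f : ∀ i, Gal(Ω/k) →* W i, f 0 = f₀ ∧ (∀ i, Function.Surjective (f i)) ∧
      (∀ i, IsOpen ((f i).ker : Set Gal(Ω/k))) ∧ ∀ i σ, p i (f (i + 1) σ) = f i σ := by
  classical
  choose c hc1 hc2 hc3 using C
  let F : ∀ n, {f : Gal(Ω/k) →* W n // Function.Surjective f ∧ IsOpen (f.ker : Set Gal(Ω/k))} :=
    fun n => Nat.rec ⟨f₀, h₀, h₀'⟩ (fun i f => ⟨c i f.1 f.2.1 f.2.2, hc1 i f.1 f.2.1 f.2.2,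
      hc2 i f.1 f.2.1 f.2.2⟩) n
  exact ⟨fun i => (F i).1, rfl, fun i => (F i).2.1, fun i => (F i).2.2,
    fun i σ => hc3 i (F i).1 (F i).2.1 (F i).2.2 σ⟩

/-- The inverse limit is the Galois group of a Galois extension. -/
theorem exists_lim {W : ℕ → Type} [∀ k, Group (W k)] (p : ∀ k, W (k + 1) →* W k)
    (f : ∀ i, Gal(Ω/k) →* W i) (hf : ∀ i, Function.Surjective (f i))
    (ho : ∀ i, IsOpen ((f i).ker : Set Gal(Ω/k))) (hp : ∀ i σ, p i (f (i + 1) σ) = f i σ) :
    ∃ (L : IntermediateField k Ω) (_ : IsGalois k L) (e : Gal(L/k) ≃* Lim p),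
      ∀ (σ : Gal(Ω/k)) (i : ℕ), (e (restrictNormalHom L σ)).1 i = f i σ := by
  classical
  let ρ : Gal(Ω/k) →* Lim p := (MonoidHom.pi f).codRestrict (Lim p) (fun σ i => hp i σ)
  have hρi : ∀ σ i, (ρ σ).1 i = f i σ := fun σ i => rfl
  have hmem : ∀ σ, σ ∈ ρ.ker ↔ ∀ j, σ ∈ (f j).ker := by
    intro σ
    rw [MonoidHom.mem_ker]
    constructor
    · intro h j
      rw [MonoidHom.mem_ker, ← hρi, h]
      rfl
    · intro h
      apply Subtype.ext
      funext j
      exact (h j)
  have hcl : ∀ i, IsClosed ((f i).ker : Set Gal(Ω/k)) := fun i =>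
    Subgroup.isClosed_of_isOpen _ (ho i)
  have hclosed : IsClosed (ρ.ker : Set Gal(Ω/k)) := by
    have h1 : (ρ.ker : Set Gal(Ω/k)) = ⋂ j, ((f j).ker : Set Gal(Ω/k)) := by
      ext σ
      simp only [SetLike.mem_coe, hmem, Set.mem_iInter]
    rw [h1]
    exact isClosed_iInter fun j => hcl j
  -- surjectivity by compactness
  have hρ : Function.Surjective ρ := by
    rintro ⟨x, hx⟩
    let C : ℕ → Set Gal(Ω/k) := fun n => {σ | f n σ = x n}
    have hne : ∀ n, (C n).Nonempty := fun n => hf n (x n)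
    have hclosedC : ∀ n, IsClosed (C n) := by
      intro n
      obtain ⟨τ, hτ⟩ := hf n (x n)
      have h1 : C n = (fun σ => τ⁻¹ * σ) ⁻¹' ((f n).ker : Set Gal(Ω/k)) := by
        ext σ
        change f n σ = x n ↔ τ⁻¹ * σ ∈ (f n).ker
        rw [MonoidHom.mem_ker, map_mul, map_inv, hτ, inv_mul_eq_one]
        exact ⟨fun h => h.symm, fun h => h.symm⟩
      rw [h1]
      exact (hcl n).preimage (continuous_const_mul _)
    have hdec : ∀ n, C (n + 1) ⊆ C n := by
      intro n σ hσ
      change f n σ = x n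
      rw [← hp, show f (n + 1) σ = x (n + 1) from hσ]
      exact hx n
    obtain ⟨σ, hσ⟩ := IsCompact.nonempty_iInter_of_sequence_nonempty_isCompact_isClosed C hdec hne
      (hclosedC 0).isCompact hclosedC
    rw [Set.mem_iInter] at hσ
    refine ⟨σ, ?_⟩
    apply Subtype.ext
    funext j
    exact hσ j
  let H : ClosedSubgroup Gal(Ω/k) := ⟨ρ.ker, hclosed⟩
  have hn : H.Normal := MonoidHom.normal_ker ρ
  have hfix : (fixedField H.1).fixingSubgroup = H.1 := InfiniteGalois.fixingSubgroup_fixedField H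
  have hgal : IsGalois k (fixedField H.1) := by
    rw [← InfiniteGalois.normal_iff_isGalois, hfix]
    exact hn
  have hker : (restrictNormalHom (F := k) (K₁ := Ω) (fixedField H.1)).ker = ρ.ker := by
    rw [restrictNormalHom_ker, hfix]
  let e : Gal((fixedField H.1)/k) ≃* Lim p :=
    (QuotientGroup.quotientKerEquivOfSurjective _ (restrictNormalHom_surjective Ω)).symm.trans
      ((QuotientGroup.quotientMulEquivOfEq hker).trans
        (QuotientGroup.quotientKerEquivOfSurjective ρ hρ))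
  refine ⟨fixedField H.1, hgal, e, fun σ i => ?_⟩
  have h1 : e (restrictNormalHom (fixedField H.1) σ) = ρ σ := by
    have h2 : (QuotientGroup.quotientKerEquivOfSurjective _ (restrictNormalHom_surjective
        (F := k) (K₁ := fixedField H.1) Ω)).symm (restrictNormalHom (fixedField H.1) σ) =
        QuotientGroup.mk σ := by
      rw [MulEquiv.symm_apply_eq]
      rfl
    simp only [e]
    rw [MulEquiv.trans_apply, MulEquiv.trans_apply, h2]
    rfl
  rw [h1]
  rfl

end

end Pool.Agent.TH15.IGP
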