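import Mathlib
import Pool.Agent.TH15.IGP.WrB
import Pool.Agent.W200.IJ.BC
import Pool.Agent.H391R2.T4.DegN
import Pool.Agent.H33R2.V3
import Pool.Agent.W200.IJ.CC

/-!
Regular solutions of permutational wreath product embedding problems.
-/

set_option autoImplicit false

namespace Pool.Agent.TH15.IGP

open MvPolynomial
open Pool.Agent.H391R2.T4 (RegSol SolOver HilbField)
open Pool.Agent.W200.IJ (taskA)

set_option linter.unusedSectionVars false

instance finite_pw (B Ω H : Type) [Group B] [Group H] [MulAction H Ω] [Finite B] [Finite Ω]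
    [Finite H] : Finite (PW B Ω H) :=
  Finite.of_equiv _ SemidirectProduct.equivProd.symm

/-- The field `k(t)` as the field of rational functions in one variable. -/
theorem frac_unit (k E : Type) [Field k] [Field E] [Algebra (Polynomial k) E]
    [IsFractionRing (Polynomial k) E] [Algebra k E] [IsScalarTower k (Polynomial k) E] :
    ∃ (_ : Algebra (MvPolynomial Unit k) E) (_ : IsFractionRing (MvPolynomial Unit k) E),
      IsScalarTower k (MvPolynomial Unit k) E := by
  let e : Polynomial k ≃+* MvPolynomial Unit k :=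
    (MvPolynomial.uniqueAlgEquiv k Unit).symm.toRingEquiv
  have h1 := IsLocalization.isLocalization_of_base_ringEquiv (nonZeroDivisors (Polynomial k)) E e
  rw [MulEquivClass.map_nonZeroDivisors] at h1
  refine ⟨((algebraMap (Polynomial k) E).comp (e.symm : _ →+* _)).toAlgebra, h1, ?_⟩
  refine @IsScalarTower.of_algebraMap_eq _ _ _ _ _ _ _ (_) _ fun c => ?_
  change _ = algebraMap (Polynomial k) E (e.symm (algebraMap k _ c))
  have h2 : e.symm (algebraMap k (MvPolynomial Unit k) c) = algebraMap k (Polynomial k) c :=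
    (MvPolynomial.uniqueAlgEquiv k Unit).commutes c
  rw [h2]
  exact IsScalarTower.algebraMap_apply k (Polynomial k) E c

theorem ratFunc_unit (k : Type) [Field k] :
    ∃ (_ : Algebra (MvPolynomial Unit k) (RatFunc k))
      (_ : IsFractionRing (MvPolynomial Unit k) (RatFunc k)),
      IsScalarTower k (MvPolynomial Unit k) (RatFunc k) :=
  frac_unit k (RatFunc k)

/-- The wreath product over a field of rational functions. -/
theorem pw_gen (k₀ k M B Ω : Type) [Field k₀] [Field k] [Algebra k₀ k] [Field M] [Algebra k M]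
    [FiniteDimensional k M]
    [IsGalois k M] [Group B] [Finite Ω] [MulAction (M ≃ₐ[k] M) Ω]
    (hB : RegSol k₀ k₀ B 1) :
    ∃ (E' : Type) (_ : Field E') (_ : Algebra (MvPolynomial (Unit ⊕ ((M ≃ₐ[k] M) × Ω)) k) E')
      (_ : IsFractionRing (MvPolynomial (Unit ⊕ ((M ≃ₐ[k] M) × Ω)) k) E') (_ : Algebra k E')
      (_ : IsScalarTower k (MvPolynomial (Unit ⊕ ((M ≃ₐ[k] M) × Ω)) k) E')
      (F' : Type) (_ : Field F') (_ : Algebra E' F') (_ : Algebra M F') (_ : Algebra k F')
      (_ : IsScalarTower k E' F') (_ : IsScalarTower k M F') (_ : FiniteDimensional E' F')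
      (_ : IsGalois E' F') (γ : (F' ≃ₐ[E'] F') ≃* PW B Ω (M ≃ₐ[k] M)),
      (∀ (σ : F' ≃ₐ[E'] F') (x : M), σ (algebraMap M F' x) = algebraMap M F' ((γ σ).right x)) ∧
      (∀ y : F', IsAlgebraic M y → y ∈ Set.range (algebraMap M F')) := by
  classical
  obtain ⟨F, iF, iA, iL, iK, t1, t2, fd, gal, β, -, hreg⟩ := hB
  have hLK : iL = iK := Algebra.algebra_ext iL iK (fun x => by
    have h4 := @IsScalarTower.algebraMap_apply k₀ k₀ F _ _ _ _ iL iK t2 x
    exact h4.symm)
  subst hLK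
  obtain ⟨aR, hfr, hT⟩ := ratFunc_unit k₀
  let V := Unit ⊕ ((M ≃ₐ[k] M) × Ω)
  let K := AlgebraicClosure M
  let Q := FractionRing (MvPolynomial V K)
  let N := AlgebraicClosure Q
  have hZ0 : IsTranscendenceBasis K (MvPolynomial.X : V → MvPolynomial V K) :=
    IsTranscendenceBasis.mvPolynomial' V K
  have hZ1 : IsTranscendenceBasis K (algebraMap (MvPolynomial V K) Q ∘ MvPolynomial.X) := by
    have : Algebra.IsAlgebraic (MvPolynomial V K) Q := IsFractionRing.comap_isAlgebraic_iff.2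
      (Algebra.IsAlgebraic.of_finite Q Q)
    exact hZ0.algebraMap_comp
  have hZ2 : IsTranscendenceBasis K (algebraMap Q N ∘ (algebraMap (MvPolynomial V K) Q ∘
      MvPolynomial.X)) := hZ1.algebraMap_comp
  let _ : Algebra k₀ N := ((algebraMap k N).comp (algebraMap k₀ k)).toAlgebra
  have hT2 : IsScalarTower k₀ k N := IsScalarTower.of_algebraMap_eq fun x => rfl
  exact wr_core (k₀ := k₀) (k := k) (M := M) (K := K) (N := N) (E := RatFunc k₀) (F := F)
    hreg β _ hZ2

/-- Regular solutions over `K(t)`. -/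
theorem pw_reg (k₀ k M B Ω : Type) [Field k₀] [Field k] [Algebra k₀ k] [Infinite k] [Field M]
    [Algebra k M] [FiniteDimensional k M] [IsGalois k M] [Group B] [Finite B] [Finite Ω]
    [MulAction (M ≃ₐ[k] M) Ω] (hB : RegSol k₀ k₀ B 1) :
    RegSol k M (PW B Ω (M ≃ₐ[k] M)) SemidirectProduct.rightHom := by
  obtain ⟨E, a1, a2, a3, a4, a5, F, b1, b2, b3, b4, b5, b6, b7, b8, γ, hγ1, hγ2⟩ :=
    pw_gen k₀ k M B Ω hB
  exact taskA k M (PW B Ω (M ≃ₐ[k] M)) SemidirectProduct.rightHom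
    (Unit ⊕ ((M ≃ₐ[k] M) × Ω)) E F γ hγ1 hγ2

/-- Proper solutions of the embedding problem attached to the action of `Gal(M/k)` on a finite
set. -/
def PWSol (k B : Type) [Field k] [Group B] : Prop :=
  ∀ (M Ω : Type) [Field M] [Algebra k M] [FiniteDimensional k M] [IsGalois k M] [Finite Ω]
    [MulAction (M ≃ₐ[k] M) Ω],
    ∃ (F : Type) (_ : Field F) (_ : Algebra k F) (_ : Algebra M F) (_ : IsScalarTower k M F),
      FiniteDimensional k F ∧ IsGalois k F ∧
      ∃ γ : (F ≃ₐ[k] F) ≃* PW B Ω (M ≃ₐ[k] M), ∀ σ : F ≃ₐ[k] F, (γ σ).right =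
        σ.restrictNormal M

/-- Proper solutions over Hilbertian fields. -/
theorem pw_hil (k₀ k B : Type) [Field k₀] [Field k] [Algebra k₀ k] [Infinite k]
    [Group B] [Finite B] (hk : HilbField k) (hB : RegSol k₀ k₀ B 1) : PWSol k B := by
  intro M Ω _ _ _ _ _ _
  obtain ⟨F, i1, i2, i3, i4, i5, i6, i7, i8, γ, hγ, -⟩ := pw_reg k₀ k M B Ω hB
  exact H33.hilbert_spec k hk M (PW B Ω (M ≃ₐ[k] M)) SemidirectProduct.rightHom
    ⟨F, i1, i2, i3, i4, i5, i6, i7, i8, γ, hγ⟩

/-- Proper solutions over fields with the specialisation property. -/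
theorem pw_sp (k₀ k B : Type) [Field k₀] [Field k] [Algebra k₀ k]
    [Group B] [Finite B] (hk : ∀ (V : Type) [Finite V], Pool.Agent.W200.IG.SP k (MvPolynomial V k))
    (hB : RegSol k₀ k₀ B 1) : PWSol k B := by
  intro M Ω _ _ _ _ _ _
  obtain ⟨E, a1, a2, a3, a4, a5, F, b1, b2, b3, b4, b5, b6, b7, b8, γ, hγ1, hγ2⟩ :=
    pw_gen k₀ k M B Ω hB
  have hψ : ∀ c : k, algebraMap M F (algebraMap k M c) =
      algebraMap E F (algebraMap (MvPolynomial (Unit ⊕ ((M ≃ₐ[k] M) × Ω)) k) E
        (algebraMap k (MvPolynomial (Unit ⊕ ((M ≃ₐ[k] M) × Ω)) k) (algebraMap k k c))) := by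
    intro c
    rw [← IsScalarTower.algebraMap_apply k M F,
      ← IsScalarTower.algebraMap_apply k (MvPolynomial (Unit ⊕ ((M ≃ₐ[k] M) × Ω)) k) E,
      ← IsScalarTower.algebraMap_apply k E F]
    rfl
  obtain ⟨Λ, l1, l2, l3, l4, e, ψ', he1, he2⟩ := Pool.Agent.W200.IJ.galois_spec2 (K := k)
    (A := MvPolynomial (Unit ⊕ ((M ≃ₐ[k] M) × Ω)) k) (F := E) (N := F)
    (hk _) (k₀ := k) (M := M) hψ
  let _ : Algebra M Λ := ψ'.toAlgebra
  have hT : IsScalarTower k M Λ := IsScalarTower.of_algebraMap_eq fun c => (he1 c).symm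
  refine ⟨Λ, l1, l2, inferInstance, hT, l3, l4, e.symm.trans γ, fun τ => ?_⟩
  apply AlgEquiv.ext
  intro x
  apply (algebraMap M Λ).injective
  obtain ⟨σ, rfl⟩ := e.surjective τ
  have h1 := AlgEquiv.restrictNormal_commutes (e σ) M x
  refine Eq.trans ?_ h1.symm
  rw [MulEquiv.trans_apply, MulEquiv.symm_apply_apply]
  exact (he2 σ x _ (hγ1 σ x)).symm

end Pool.Agent.TH15.IGP
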