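import Mathlib
import Pool.Agent.TH15.IGP.WrC
import Pool.Agent.TH15.IGP.Tow

/-!
One step of a tower of permutational wreath products over a Hilbertian field.
-/

set_option autoImplicit false

namespace Pool.Agent.TH15.IGP

open Pool.Agent.H391R2.T4 (RegSol SolOver HilbField)

set_option linter.unusedSectionVars false

/-- Change of the acting group. -/
def pwCongr {B X H H' : Type} [Group B] [Group H] [Group H'] [MulAction H X] [MulAction H' X]
    (ε : H ≃* H') (hε : ∀ (h : H) (x : X), h • x = ε h • x) : PW B X H ≃* PW B X H' where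
  toFun z := ⟨z.left, ε z.right⟩
  invFun z := ⟨z.left, ε.symm z.right⟩
  left_inv z := by
    apply SemidirectProduct.ext
    · rfl
    · exact ε.symm_apply_apply _
  right_inv z := by
    apply SemidirectProduct.ext
    · rfl
    · exact ε.apply_symm_apply _
  map_mul' a b := by
    apply SemidirectProduct.ext
    · funext w
      change (a * b).left w = a.left w * b.left ((ε a.right)⁻¹ • w)
      rw [pw_mul_left, hε, map_inv]
    · exact map_mul ε _ _

section step

variable {K Ω : Type} [Field K] [Field Ω] [Algebra K Ω] [IsGalois K Ω]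

open IntermediateField AlgEquiv

/-- The field attached to an epimorphism with open kernel. -/
theorem exists_fix {W : Type} [Group W] (f : Gal(Ω/K) →* W) (hf : Function.Surjective f)
    (ho : IsOpen (f.ker : Set Gal(Ω/K))) :
    ∃ (L : IntermediateField K Ω) (_ : FiniteDimensional K L) (_ : IsGalois K L)
      (ε : Gal(L/K) ≃* W), ∀ σ, ε (restrictNormalHom L σ) = f σ := by
  classical
  let H : ClosedSubgroup Gal(Ω/K) := ⟨f.ker, Subgroup.isClosed_of_isOpen _ ho⟩
  have hn : H.Normal := MonoidHom.normal_ker f
  have hfix : (fixedField H.1).fixingSubgroup = H.1 := InfiniteGalois.fixingSubgroup_fixedField H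
  have hgal : IsGalois K (fixedField H.1) := by
    rw [← InfiniteGalois.normal_iff_isGalois, hfix]
    exact hn
  have hfd : FiniteDimensional K (fixedField H.1) := by
    rw [← InfiniteGalois.isOpen_iff_finite, hfix]
    exact ho
  have hker : (restrictNormalHom (F := K) (K₁ := Ω) (fixedField H.1)).ker = f.ker := by
    rw [restrictNormalHom_ker, hfix]
  let e : Gal((fixedField H.1)/K) ≃* W :=
    (QuotientGroup.quotientKerEquivOfSurjective _ (restrictNormalHom_surjective Ω)).symm.trans
      ((QuotientGroup.quotientMulEquivOfEq hker).trans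
        (QuotientGroup.quotientKerEquivOfSurjective f hf))
  refine ⟨fixedField H.1, hfd, hgal, e, fun σ => ?_⟩
  have h2 : (QuotientGroup.quotientKerEquivOfSurjective _ (restrictNormalHom_surjective
      (F := K) (K₁ := fixedField H.1) Ω)).symm (restrictNormalHom (fixedField H.1) σ) =
      QuotientGroup.mk σ := by
    rw [MulEquiv.symm_apply_eq]
    rfl
  simp only [e]
  rw [MulEquiv.trans_apply, MulEquiv.trans_apply, h2]
  rfl

/-- One step of the tower. -/
theorem step [IsSepClosed Ω] {W B X : Type} [Group W] [Group B]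
    [Finite X] [MulAction W X] (hB : PWSol K B)
    (f : Gal(Ω/K) →* W) (hf : Function.Surjective f) (ho : IsOpen (f.ker : Set Gal(Ω/K))) :
    ∃ f' : Gal(Ω/K) →* PW B X W, Function.Surjective f' ∧ IsOpen (f'.ker : Set Gal(Ω/K)) ∧
      ∀ σ, (f' σ).right = f σ := by
  classical
  obtain ⟨L, hfd, hgal, ε, hε⟩ := exists_fix f hf ho
  let aX : MulAction (L ≃ₐ[K] L) X := MulAction.compHom X ε.toMonoidHom
  obtain ⟨F, i1, i2, i3, i4, i5, i6, γ, hγ⟩ := hB L X
  have i7 : FiniteDimensional L F := FiniteDimensional.right K L F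
  have i8 : IsGalois L F := IsGalois.tower_top_of_isGalois K L F
  let j : F →ₐ[L] Ω := IsSepClosed.lift
  let aF : Algebra F Ω := j.toRingHom.toAlgebra
  have hT : IsScalarTower K F Ω := IsScalarTower.of_algebraMap_eq fun x => by
    change _ = j (algebraMap K F x)
    rw [IsScalarTower.algebraMap_apply K L F, AlgHom.commutes]
    rfl
  have hTL : IsScalarTower L F Ω := IsScalarTower.of_algebraMap_eq fun x => (j.commutes x).symm
  let r : Gal(Ω/K) →* (F ≃ₐ[K] F) := restrictNormalHom F
  have hr : Function.Surjective r := restrictNormalHom_surjective Ω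
  let c : PW B X (L ≃ₐ[K] L) ≃* PW B X W := pwCongr ε (fun h x => rfl)
  refine ⟨(c.toMonoidHom.comp γ.toMonoidHom).comp r, ?_, ?_, ?_⟩
  · exact (c.surjective.comp γ.surjective).comp hr
  · let E' : IntermediateField K Ω := (IsScalarTower.toAlgHom K F Ω).fieldRange
    have hE' : FiniteDimensional K E' := Module.Finite.equiv
      (AlgEquiv.ofInjectiveField (IsScalarTower.toAlgHom K F Ω)).toLinearEquiv
    refine Subgroup.isOpen_mono (H₁ := E'.fixingSubgroup) ?_ E'.fixingSubgroup_isOpen
    intro σ hσ
    rw [MonoidHom.mem_ker, MonoidHom.comp_apply]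
    have h1 : r σ = 1 := by
      apply AlgEquiv.ext
      intro x
      apply (algebraMap F Ω).injective
      have h2 := AlgEquiv.restrictNormal_commutes σ F x
      refine h2.trans ?_
      rw [IntermediateField.mem_fixingSubgroup_iff] at hσ
      exact hσ _ ⟨x, rfl⟩
    rw [h1, map_one]
  · intro σ
    change ε (γ (r σ)).right = f σ
    rw [hγ, ← hε]
    congr 1
    apply AlgEquiv.ext
    intro x
    apply (algebraMap L Ω).injective
    have h1 := AlgEquiv.restrictNormal_commutes (r σ) L x
    have h2 := AlgEquiv.restrictNormal_commutes σ F (algebraMap L F x)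
    have h3 := AlgEquiv.restrictNormal_commutes σ L x
    change algebraMap L Ω ((r σ).restrictNormal L x) = algebraMap L Ω (σ.restrictNormal L x)
    rw [h3, IsScalarTower.algebraMap_apply L F Ω, h1]
    rw [IsScalarTower.algebraMap_apply L F Ω x]
    exact h2

/-- Infinite towers, as quotients of the absolute Galois group. -/
theorem tower_hom [IsSepClosed Ω] (W : ℕ → Type)
    [∀ i, Group (W i)] (B X : ℕ → Type) [∀ i, Group (B i)]
    [∀ i, Finite (X i)] [∀ i, MulAction (W i) (X i)] (hB : ∀ i, PWSol K (B i))
    (p : ∀ i, W (i + 1) →* W i) (e : ∀ i, W (i + 1) ≃* PW (B i) (X i) (W i))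
    (he : ∀ i x, (e i x).right = p i x)
    (f₀ : Gal(Ω/K) →* W 0) (hf₀ : Function.Surjective f₀)
    (ho : IsOpen (f₀.ker : Set Gal(Ω/K))) :
    ∃ (L : IntermediateField K Ω) (_ : IsGalois K L) (e : Gal(L/K) ≃* Lim p),
      ∀ σ : Gal(Ω/K), (e (restrictNormalHom L σ)).1 0 = f₀ σ := by
  obtain ⟨f, h1, h2, h3, h4⟩ := exists_hom_seq (k := K) (Ω := Ω) p (fun i f hf hof => by
    obtain ⟨f', h1, h2, h3⟩ := step (B := B i) (X := X i) (hB i) f hf hof
    refine ⟨(e i).symm.toMonoidHom.comp f', (e i).symm.surjective.comp h1, ?_, fun σ => ?_⟩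
    · have h5 : ((e i).symm.toMonoidHom.comp f').ker = f'.ker := by
        ext σ
        rw [MonoidHom.mem_ker, MonoidHom.mem_ker, MonoidHom.comp_apply]
        exact map_eq_one_iff _ (e i).symm.injective
      rw [h5]
      exact h2
    · rw [← he]
      change (e i ((e i).symm (f' σ))).right = f σ
      rw [MulEquiv.apply_symm_apply, h3]) f₀ hf₀ ho
  obtain ⟨L, hL, e', he'⟩ := exists_lim p f h2 h3 h4
  exact ⟨L, hL, e', fun σ => by rw [he', h1]⟩

end step

end Pool.Agent.TH15.IGP
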