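import Mathlib
import Pool.Agent.TH15.IGP.Stp

/-!
Infinite towers above a given finite Galois extension.
-/

set_option autoImplicit false

namespace Pool.Agent.TH15.IGP

open IntermediateField AlgEquiv

/-- Infinite towers above a given finite Galois extension. -/
theorem tower_field (K : Type) [Field K] (W : ℕ → Type)
    [∀ i, Group (W i)] (B X : ℕ → Type) [∀ i, Group (B i)]
    [∀ i, Finite (X i)] [∀ i, MulAction (W i) (X i)] (hB : ∀ i, PWSol K (B i))
    (p : ∀ i, W (i + 1) →* W i) (e : ∀ i, W (i + 1) ≃* PW (B i) (X i) (W i))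
    (he : ∀ i x, (e i x).right = p i x)
    (L₀ : Type) [Field L₀] [Algebra K L₀] [FiniteDimensional K L₀] [IsGalois K L₀]
    (e₀ : (L₀ ≃ₐ[K] L₀) ≃* W 0) :
    ∃ (L : Type) (_ : Field L) (_ : Algebra K L) (_ : Algebra L₀ L) (_ : IsScalarTower K L₀ L)
      (_ : IsGalois K L) (ε : (L ≃ₐ[K] L) ≃* Lim p),
      ∀ (σ : L ≃ₐ[K] L) (x : L₀),
        σ (algebraMap L₀ L x) = algebraMap L₀ L (e₀.symm ((ε σ).1 0) x) := by
  classical
  let Ω := SeparableClosure K
  let j : L₀ →ₐ[K] Ω := IsSepClosed.lift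
  let aL : Algebra L₀ Ω := j.toRingHom.toAlgebra
  have hT : IsScalarTower K L₀ Ω := IsScalarTower.of_algebraMap_eq fun x => (j.commutes x).symm
  let r : Gal(Ω/K) →* (L₀ ≃ₐ[K] L₀) := restrictNormalHom L₀
  have hr : Function.Surjective r := restrictNormalHom_surjective Ω
  have hrc : ∀ (σ : Gal(Ω/K)) (x : L₀), σ (j x) = j (r σ x) := fun σ x =>
    (AlgEquiv.restrictNormal_commutes σ L₀ x).symm
  let f₀ : Gal(Ω/K) →* W 0 := e₀.toMonoidHom.comp r
  have hker : ∀ σ, f₀ σ = 1 ↔ r σ = 1 := fun σ => map_eq_one_iff e₀ e₀.injective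
  have ho : IsOpen (f₀.ker : Set Gal(Ω/K)) := by
    let E' : IntermediateField K Ω := (IsScalarTower.toAlgHom K L₀ Ω).fieldRange
    have hE' : FiniteDimensional K E' := Module.Finite.equiv
      (AlgEquiv.ofInjectiveField (IsScalarTower.toAlgHom K L₀ Ω)).toLinearEquiv
    refine Subgroup.isOpen_mono (H₁ := E'.fixingSubgroup) ?_ E'.fixingSubgroup_isOpen
    intro σ hσ
    rw [MonoidHom.mem_ker, hker]
    apply AlgEquiv.ext
    intro x
    apply j.toRingHom.injective
    refine (hrc σ x).symm.trans ?_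
    rw [IntermediateField.mem_fixingSubgroup_iff] at hσ
    exact hσ _ ⟨x, rfl⟩
  obtain ⟨L, hL, ε, hε⟩ := tower_hom (K := K) (Ω := Ω) W B X hB p e he f₀
    (e₀.surjective.comp hr) ho
  have hjL : ∀ x : L₀, j x ∈ L := by
    intro x
    rw [← InfiniteGalois.fixedField_fixingSubgroup L]
    rintro ⟨σ, hσ⟩
    have h1 : restrictNormalHom L σ = 1 := by
      rw [← MonoidHom.mem_ker, restrictNormalHom_ker]
      exact hσ
    have h2 := hε σ
    rw [h1, map_one] at h2
    have h3 : r σ = 1 := (hker σ).1 h2.symm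
    change σ (j x) = j x
    rw [hrc, h3]
    rfl
  let j' : L₀ →ₐ[K] L := j.codRestrict L.toSubalgebra hjL
  let aL' : Algebra L₀ L := j'.toRingHom.toAlgebra
  have hT' : IsScalarTower K L₀ L := IsScalarTower.of_algebraMap_eq fun x => (j'.commutes x).symm
  refine ⟨L, inferInstance, inferInstance, aL', hT', hL, ε, fun τ x => ?_⟩
  obtain ⟨σ, rfl⟩ := restrictNormalHom_surjective (F := K) (K₁ := L) Ω τ
  rw [hε]
  apply Subtype.ext
  have h1 := AlgEquiv.restrictNormal_commutes σ L (j' x)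
  refine h1.trans ?_
  change σ (j x) = j (e₀.symm (e₀ (r σ)) x)
  rw [MulEquiv.symm_apply_apply, hrc]

end Pool.Agent.TH15.IGP
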