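import Mathlib
import Pool.Agent.TH15.IGP.TwF
import Pool.Agent.TH15.IGP.Fin
import Pool.Agent.W200.IK.DD
import Pool.Agent.H391R2.T4.Fin

/-!
Regular realisations of wreath products over prime fields, and a bound which does not depend on
the field.
-/

set_option autoImplicit false

namespace Pool.Agent.TH15.IGP

open Pool.Agent.H391R2 (Wr)
open Pool.Agent.H391R2.T4 (RegSol HilbField EG regSol_iff finite_wr)

/-- Over finite fields, with an explicit bound. -/
theorem wr_fin (κ : Type) [Field κ] [Finite κ] (G : Type) [Group G] [Finite G] (n : ℕ)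
    (hn : ((Nat.card G + 2).factorial) ^ 3 ≤ n) : RegSol κ κ (Wr G n) 1 := by
  have hsub : ∀ a b : (κ ≃ₐ[κ] κ), a = b := fun a b => Subsingleton.elim a b
  have hcard : Nat.card (κ ≃ₐ[κ] κ) = 1 :=
    Nat.card_eq_one_iff_unique.2 ⟨⟨hsub⟩, ⟨1⟩⟩
  have hbd : Pool.Agent.W200.IK.bd (Nat.card G) (Nat.card (κ ≃ₐ[κ] κ)) ≤ n := by
    rw [hcard]
    exact (Pool.Agent.W200.IK.bd_one_le _ Nat.card_pos).trans hn
  obtain ⟨hn3, F, i1, i2, i3, i4, i5, i6, i7, i8, γ, hγ, hreg⟩ :=
    Pool.Agent.W200.IK.reg_wreath_fin_bd κ κ G 1 n hbd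
  let ε : EG (1 : (κ ≃ₐ[κ] κ) →* MulAut G) n ≃* Wr G n :=
    { toFun := fun z => z.left
      invFun := fun x => ⟨x, 1⟩
      left_inv := fun z => SemidirectProduct.ext rfl (hsub _ _)
      right_inv := fun x => rfl
      map_mul' := fun a b => by
        change a.left * _ = a.left * b.left
        congr 1 }
  refine ⟨F, i1, i2, i3, i4, i5, i6, i7, i8, γ.trans ε, fun σ x => ?_, hreg⟩
  rw [hγ]
  congr 1
  exact DFunLike.congr_fun (hsub _ _) x

/-- Over the rational numbers. -/
theorem wr_rat (G : Type) [Group G] [Finite G] : ∃ n₀ : ℕ, ∀ n ≥ n₀, RegSol ℚ ℚ (Wr G n) 1 := by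
  obtain ⟨n₀, hn₀⟩ := (Pool.Agent.H391R2.T4.rat_fin G).1
  exact ⟨n₀, fun n hn => (regSol_iff ℚ ℚ (Wr G n) 1).2 (hn₀ n hn).1⟩

open Classical in
/-- The bound. -/
noncomputable def NN (G : Type) [Group G] : ℕ :=
  if h : Finite G then max ((@wr_rat G _ h).choose) (((Nat.card G + 2).factorial) ^ 3) else 0

/-- Every field contains a field over which the wreath product is regularly realised. -/
theorem exists_sub (K : Type) [Field K] (G : Type) [Group G] [Finite G] (n : ℕ) (hn : NN G ≤ n) :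
    ∃ (k₀ : Type) (_ : Field k₀) (_ : Algebra k₀ K), RegSol k₀ k₀ (Wr G n) 1 := by
  unfold NN at hn
  rw [dif_pos (inferInstance : Finite G)] at hn
  obtain ⟨p, hp⟩ := CharP.exists K
  rcases CharP.char_is_prime_or_zero K p with h | h
  · have : Fact p.Prime := ⟨h⟩
    exact ⟨ZMod p, inferInstance, ZMod.algebra K p,
      wr_fin (ZMod p) G n ((le_max_right _ _).trans hn)⟩
  · subst h
    have : CharZero K := CharP.charP_to_charZero K
    exact ⟨ℚ, inferInstance, inferInstance,
      (wr_rat G).choose_spec n ((le_max_left _ _).trans hn)⟩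

/-- In positive characteristic the bound is explicit. -/
theorem exists_sub_p (K : Type) [Field K] (p : ℕ) [Fact p.Prime] [CharP K p] (G : Type) [Group G]
    [Finite G] (n : ℕ) (hn : ((Nat.card G + 2).factorial) ^ 3 ≤ n) :
    ∃ (k₀ : Type) (_ : Field k₀) (_ : Algebra k₀ K), RegSol k₀ k₀ (Wr G n) 1 :=
  ⟨ZMod p, inferInstance, ZMod.algebra K p, wr_fin (ZMod p) G n hn⟩

/-- Regular solutions over all fields, uniformly. -/
theorem uni_reg (K L : Type) [Field K] [Field L] [Algebra K L] [FiniteDimensional K L]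
    [IsGalois K L] (X : Type) [Finite X] [MulAction (L ≃ₐ[K] L) X] (G : Type) [Group G] [Finite G]
    (n : ℕ) (hn : NN G ≤ n) :
    RegSol K L (PW (Wr G n) X (L ≃ₐ[K] L)) SemidirectProduct.rightHom := by
  obtain ⟨k₀, i1, i2, h⟩ := exists_sub K G n hn
  exact pw_reg_all k₀ K L (Wr G n) X h

/-- Proper solutions over Hilbertian fields, uniformly. -/
theorem uni_hil (K : Type) [Field K] (hK : HilbField K) (G : Type) [Group G] [Finite G]
    (n : ℕ) (hn : NN G ≤ n) : PWSol K (Wr G n) := by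
  have : Infinite K := Pool.Agent.W200.IJ.infinite_of_hilb K hK
  obtain ⟨k₀, i1, i2, h⟩ := exists_sub K G n hn
  exact pw_hil k₀ K (Wr G n) hK h

/-- Proper solutions over rational function fields of finite fields. -/
theorem uni_ff (κ : Type) [Field κ] [Finite κ] (G : Type) [Group G] [Finite G]
    (n : ℕ) (hn : ((Nat.card G + 2).factorial) ^ 3 ≤ n) : PWSol (RatFunc κ) (Wr G n) := by
  have hinf : Infinite (RatFunc κ) :=
    Infinite.of_injective _ (IsFractionRing.injective (Polynomial κ) (RatFunc κ))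
  exact pw_sp κ (RatFunc κ) (Wr G n) (fun V _ => Pool.Agent.W200.IG.sp_mvPolynomial (RatFunc κ)
    (Pool.Agent.W200.IG.hp_base (κ := κ) (RatFunc κ)) V) (wr_fin κ G n hn)

end Pool.Agent.TH15.IGP
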