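import Mathlib
import Pool.Agent.TH15.IGP.TwD
import Pool.Agent.TH15.IGP.TwF

/-!
Infinite towers with arbitrary solvable steps.
-/

set_option autoImplicit false

namespace Pool.Agent.TH15.IGP

open IntermediateField AlgEquiv
open Pool.Agent.H391R2.T4 (RegSol HilbField)

/-- Every embedding problem over `K` given by the epimorphism `p : W' → W` and a finite Galois
extension with group `W` has a proper solution. -/
def StepSol (K : Type) [Field K] {W W' : Type} [Group W] [Group W'] (p : W' →* W) : Prop :=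
  ∀ (L : Type) [Field L] [Algebra K L] [FiniteDimensional K L] [IsGalois K L]
    (ε : (L ≃ₐ[K] L) ≃* W),
    ∃ (F : Type) (_ : Field F) (_ : Algebra K F) (_ : Algebra L F) (_ : IsScalarTower K L F),
      FiniteDimensional K F ∧ IsGalois K F ∧
      ∃ γ : (F ≃ₐ[K] F) ≃* W', ∀ σ : F ≃ₐ[K] F, p (γ σ) = ε (σ.restrictNormal L)

/-- One step, for quotients of the absolute Galois group. -/
theorem step_gen {K Ω : Type} [Field K] [Field Ω] [Algebra K Ω] [IsGalois K Ω] [IsSepClosed Ω]
    {W W' : Type} [Group W] [Group W'] (p : W' →* W) (hp : StepSol K p)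
    (f : Gal(Ω/K) →* W) (hf : Function.Surjective f) (ho : IsOpen (f.ker : Set Gal(Ω/K))) :
    ∃ f' : Gal(Ω/K) →* W', Function.Surjective f' ∧ IsOpen (f'.ker : Set Gal(Ω/K)) ∧
      ∀ σ, p (f' σ) = f σ := by
  classical
  obtain ⟨L, hfd, hgal, ε, hε⟩ := exists_fix f hf ho
  obtain ⟨F, i1, i2, i3, i4, i5, i6, γ, hγ⟩ := hp L ε
  have i7 : FiniteDimensional L F := FiniteDimensional.right K L F
  have i8 : IsGalois L F := IsGalois.tower_top_of_isGalois K L F
  let j : F →ₐ[L] Ω := IsSepClosed.lift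
  let aF : Algebra F Ω := j.toRingHom.toAlgebra
  have hT : IsScalarTower K F Ω := IsScalarTower.of_algebraMap_eq fun x => by
    change _ = j (algebraMap K F x)
    rw [IsScalarTower.algebraMap_apply K L F, AlgHom.commutes]
    rfl
  have hTL : IsScalarTower L F Ω := IsScalarTower.of_algebraMap_eq fun x => (j.commutes x).symm
  let r : Gal(Ω/K) →* (F ≃ₐ[K] F) := restrictNormalHom F
  have hr : Function.Surjective r := restrictNormalHom_surjective Ω
  refine ⟨γ.toMonoidHom.comp r, γ.surjective.comp hr, ?_, ?_⟩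
  · let E' : IntermediateField K Ω := (IsScalarTower.toAlgHom K F Ω).fieldRange
    have hE' : FiniteDimensional K E' := Module.Finite.equiv
      (AlgEquiv.ofInjectiveField (IsScalarTower.toAlgHom K F Ω)).toLinearEquiv
    refine Subgroup.isOpen_mono (H₁ := E'.fixingSubgroup) ?_ E'.fixingSubgroup_isOpen
    intro σ hσ
    rw [MonoidHom.mem_ker, MonoidHom.comp_apply]
    have h1 : r σ = 1 := by
      apply AlgEquiv.ext
      intro x
      apply (algebraMap F Ω).injective
      have h2 := AlgEquiv.restrictNormal_commutes σ F x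
      refine h2.trans ?_
      rw [IntermediateField.mem_fixingSubgroup_iff] at hσ
      exact hσ _ ⟨x, rfl⟩
    rw [h1, map_one]
  · intro σ
    change p (γ (r σ)) = f σ
    rw [hγ, ← hε]
    congr 1
    apply AlgEquiv.ext
    intro x
    apply (algebraMap L Ω).injective
    have h1 := AlgEquiv.restrictNormal_commutes (r σ) L x
    have h2 := AlgEquiv.restrictNormal_commutes σ F (algebraMap L F x)
    have h3 := AlgEquiv.restrictNormal_commutes σ L x
    change algebraMap L Ω ((r σ).restrictNormal L x) = algebraMap L Ω (σ.restrictNormal L x)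
    rw [h3, IsScalarTower.algebraMap_apply L F Ω, h1]
    rw [IsScalarTower.algebraMap_apply L F Ω x]
    exact h2

/-- Infinite towers above a given finite Galois extension. -/
theorem tower_gen (K : Type) [Field K] (W : ℕ → Type)
    [∀ i, Group (W i)] (p : ∀ i, W (i + 1) →* W i) (hp : ∀ i, StepSol K (p i))
    (L₀ : Type) [Field L₀] [Algebra K L₀] [FiniteDimensional K L₀] [IsGalois K L₀]
    (e₀ : (L₀ ≃ₐ[K] L₀) ≃* W 0) :
    ∃ (L : Type) (_ : Field L) (_ : Algebra K L) (_ : Algebra L₀ L) (_ : IsScalarTower K L₀ L)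
      (_ : IsGalois K L) (ε : (L ≃ₐ[K] L) ≃* Lim p),
      ∀ (σ : L ≃ₐ[K] L) (x : L₀),
        σ (algebraMap L₀ L x) = algebraMap L₀ L (e₀.symm ((ε σ).1 0) x) := by
  classical
  let Ω := SeparableClosure K
  let j : L₀ →ₐ[K] Ω := IsSepClosed.lift
  let aL : Algebra L₀ Ω := j.toRingHom.toAlgebra
  have hT : IsScalarTower K L₀ Ω := IsScalarTower.of_algebraMap_eq fun x => (j.commutes x).symm
  let r : Gal(Ω/K) →* (L₀ ≃ₐ[K] L₀) := restrictNormalHom L₀
  have hr : Function.Surjective r := restrictNormalHom_surjective Ω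
  have hrc : ∀ (σ : Gal(Ω/K)) (x : L₀), σ (j x) = j (r σ x) := fun σ x =>
    (AlgEquiv.restrictNormal_commutes σ L₀ x).symm
  let f₀ : Gal(Ω/K) →* W 0 := e₀.toMonoidHom.comp r
  have hker : ∀ σ, f₀ σ = 1 ↔ r σ = 1 := fun σ => map_eq_one_iff e₀ e₀.injective
  have ho : IsOpen (f₀.ker : Set Gal(Ω/K)) := by
    let E' : IntermediateField K Ω := (IsScalarTower.toAlgHom K L₀ Ω).fieldRange
    have hE' : FiniteDimensional K E' := Module.Finite.equiv
      (AlgEquiv.ofInjectiveField (IsScalarTower.toAlgHom K L₀ Ω)).toLinearEquiv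
    refine Subgroup.isOpen_mono (H₁ := E'.fixingSubgroup) ?_ E'.fixingSubgroup_isOpen
    intro σ hσ
    rw [MonoidHom.mem_ker, hker]
    apply AlgEquiv.ext
    intro x
    apply j.toRingHom.injective
    refine (hrc σ x).symm.trans ?_
    rw [IntermediateField.mem_fixingSubgroup_iff] at hσ
    exact hσ _ ⟨x, rfl⟩
  obtain ⟨f, h1, h2, h3, h4⟩ := exists_hom_seq (k := K) (Ω := Ω) p (fun i f hf hof =>
    step_gen (p i) (hp i) f hf hof) f₀ (e₀.surjective.comp hr) ho
  obtain ⟨L, hL, ε, hε'⟩ := exists_lim p f h2 h3 h4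
  have hε : ∀ σ : Gal(Ω/K), (ε (restrictNormalHom L σ)).1 0 = f₀ σ := fun σ => by rw [hε', h1]
  have hjL : ∀ x : L₀, j x ∈ L := by
    intro x
    rw [← InfiniteGalois.fixedField_fixingSubgroup L]
    rintro ⟨σ, hσ⟩
    have h1 : restrictNormalHom L σ = 1 := by
      rw [← MonoidHom.mem_ker, restrictNormalHom_ker]
      exact hσ
    have h2 := hε σ
    rw [h1, map_one] at h2
    have h3 : r σ = 1 := (hker σ).1 h2.symm
    change σ (j x) = j x
    rw [hrc, h3]
    rfl
  let j' : L₀ →ₐ[K] L := j.codRestrict L.toSubalgebra hjL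
  let aL' : Algebra L₀ L := j'.toRingHom.toAlgebra
  have hT' : IsScalarTower K L₀ L := IsScalarTower.of_algebraMap_eq fun x => (j'.commutes x).symm
  refine ⟨L, inferInstance, inferInstance, aL', hT', hL, ε, fun τ x => ?_⟩
  obtain ⟨σ, rfl⟩ := restrictNormalHom_surjective (F := K) (K₁ := L) Ω τ
  rw [hε]
  apply Subtype.ext
  have h1 := AlgEquiv.restrictNormal_commutes σ L (j' x)
  refine h1.trans ?_
  change σ (j x) = j (e₀.symm (e₀ (r σ)) x)
  rw [MulEquiv.symm_apply_apply, hrc]

/-- Steps over Hilbertian fields from regular solutions. -/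
theorem stepSol_of_reg (K : Type) [Field K] (hK : HilbField K) {W W' : Type} [Group W] [Group W']
    [Finite W'] (p : W' →* W)
    (h : ∀ (L : Type) [Field L] [Algebra K L] [FiniteDimensional K L] [IsGalois K L]
      (ε : (L ≃ₐ[K] L) ≃* W), RegSol K L W' (ε.symm.toMonoidHom.comp p)) : StepSol K p := by
  intro L _ _ _ _ ε
  obtain ⟨F, i1, i2, i3, i4, i5, i6, i7, i8, γ, hγ, -⟩ := h L ε
  obtain ⟨F', j1, j2, j3, j4, j5, j6, γ', hγ'⟩ := H33.hilbert_spec K hK L W'
    (ε.symm.toMonoidHom.comp p) ⟨F, i1, i2, i3, i4, i5, i6, i7, i8, γ, hγ⟩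
  refine ⟨F', j1, j2, j3, j4, j5, j6, γ', fun σ => ?_⟩
  rw [← hγ' σ]
  exact (ε.apply_symm_apply _).symm

/-- Steps over fields with the specialisation property, from regular solutions over `K(t)`. -/
theorem stepSol_of_sp (K : Type) [Field K]
    (hK : ∀ (V : Type) [Finite V], Pool.Agent.W200.IG.SP K (MvPolynomial V K))
    {W W' : Type} [Group W] [Group W'] [Finite W'] (p : W' →* W)
    (h : ∀ (L : Type) [Field L] [Algebra K L] [FiniteDimensional K L] [IsGalois K L]
      (ε : (L ≃ₐ[K] L) ≃* W), RegSol K L W' (ε.symm.toMonoidHom.comp p)) : StepSol K p := by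
  intro L _ _ _ _ ε
  obtain ⟨F, i1, i2, i3, i4, i5, i6, i7, i8, γ, hγ, -⟩ := h L ε
  obtain ⟨aR, hfr, hT⟩ := ratFunc_unit K
  have hψ : ∀ c : K, algebraMap L F (algebraMap K L c) =
      algebraMap (RatFunc K) F (algebraMap (MvPolynomial Unit K) (RatFunc K)
        (algebraMap K (MvPolynomial Unit K) (algebraMap K K c))) := by
    intro c
    rw [← IsScalarTower.algebraMap_apply K L F,
      ← IsScalarTower.algebraMap_apply K (MvPolynomial Unit K) (RatFunc K),
      ← IsScalarTower.algebraMap_apply K (RatFunc K) F]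
    rfl
  obtain ⟨Λ, l1, l2, l3, l4, e, ψ', he1, he2⟩ := Pool.Agent.W200.IJ.galois_spec2 (K := K)
    (A := MvPolynomial Unit K) (F := RatFunc K) (N := F)
    (hK _) (k₀ := K) (M := L) hψ
  let _ : Algebra L Λ := ψ'.toAlgebra
  have hTL : IsScalarTower K L Λ := IsScalarTower.of_algebraMap_eq fun c => (he1 c).symm
  refine ⟨Λ, l1, l2, inferInstance, hTL, l3, l4, e.symm.trans γ, fun τ => ?_⟩
  obtain ⟨σ, rfl⟩ := e.surjective τ
  have h1 : (ε.symm (p ((e.symm.trans γ) (e σ)))) = (e σ).restrictNormal L := by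
    apply AlgEquiv.ext
    intro x
    apply (algebraMap L Λ).injective
    have h1 := AlgEquiv.restrictNormal_commutes (e σ) L x
    refine Eq.trans ?_ h1.symm
    rw [MulEquiv.trans_apply, MulEquiv.symm_apply_apply]
    exact (he2 σ x _ (hγ σ x)).symm
  rw [← h1, MulEquiv.apply_symm_apply]

end Pool.Agent.TH15.IGP
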